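import Mathlib
import Pool.Agent.Q3.ULit.Tree

/-!
# MP_0aa2e9_nt: the uniform Littlewood exceptional set has Hausdorff dimension at least `2/3`
-/

set_option autoImplicit false

open Filter Topology Set
open scoped ENNReal NNReal

namespace Pool.Agent.Results.MP_0aa2e9_nt.UniformLittlewood

/-- Distance to the nearest integer. -/
noncomputable def nint (x : ℝ) : ℝ := |x - round x|

/-- `m_Q(ξ, ζ) = min {‖qξ‖ ‖qζ‖ : 1 ≤ q ≤ Q}`, as an infimum over `q = 1, …, Q`. -/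
noncomputable def mQ (ξ ζ : ℝ) (Q : ℕ) : ℝ :=
  sInf ((fun q : ℕ => nint (q * ξ) * nint (q * ζ)) '' Set.Icc 1 Q)

/-- `F(ξ, ζ) = limsup Q m_Q(ξ, ζ)`, in the extended reals. -/
noncomputable def F (ξ ζ : ℝ) : EReal :=
  limsup (fun Q : ℕ => (((Q : ℝ) * mQ ξ ζ Q : ℝ) : EReal)) atTop

/-- The set `Θ`, as a set of pairs in the Euclidean plane. -/
def Theta : Set (EuclideanSpace ℝ (Fin 2)) := {v | ((1 / 188 : ℝ) : EReal) < F (v 0) (v 1)}

/-- The product at a good point, after a perturbation. -/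
theorem prod_ge (N p u : ℕ) (hN : 16 ≤ N) (hp : Nat.Coprime p N) (hq : Q3.ULit.Qual N u)
    (ξ ζ : ℝ) (h1 : (p : ℝ) / N ≤ ξ) (h2 : ξ ≤ (p : ℝ) / N + 1 / (4 * (N : ℝ) ^ 2))
    (h3 : Int.fract ((p : ℝ) * u / N) ≤ ζ) (h4 : ζ ≤ Int.fract ((p : ℝ) * u / N) + 1 / (4 * (N : ℝ) ^ 2))
    (q : ℕ) (hq1 : 1 ≤ q) (hqN : q < N) : 9 / (1040 * (N : ℝ)) ≤ nint (q * ξ) * nint (q * ζ) := by
  have hNr : (16 : ℝ) ≤ N := by exact_mod_cast hN
  have hN0 : (0 : ℝ) < N := by linarith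
  have hq0 : (0 : ℝ) < q := by exact_mod_cast hq1
  have hqNr : (q : ℝ) < N := by exact_mod_cast hqN
  have hqs : (q : ℝ) * (1 / (4 * (N : ℝ) ^ 2)) ≤ 1 / (4 * N) := by
    rw [mul_one_div, div_le_div_iff₀ (by positivity) (by positivity)]
    nlinarith
  obtain ⟨a, ha⟩ : ∃ a : ℤ, a = round ((q : ℝ) * ξ) := ⟨_, rfl⟩
  obtain ⟨b, hb⟩ : ∃ b : ℤ, b = round ((q : ℝ) * ζ) := ⟨_, rfl⟩
  obtain ⟨F0, hF0⟩ : ∃ F0 : ℤ, F0 = ⌊(p : ℝ) * u / N⌋ := ⟨_, rfl⟩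
  have hfr : Int.fract ((p : ℝ) * u / N) = (p : ℝ) * u / N - F0 := by rw [hF0]; rfl
  rw [hfr] at h3 h4
  -- integer data
  obtain ⟨X, hX⟩ : ∃ X : ℤ, X = q * p - a * N := ⟨_, rfl⟩
  obtain ⟨Y, hY⟩ : ∃ Y : ℤ, Y = q * (p * u - F0 * N) - b * N := ⟨_, rfl⟩
  have hndvd : ¬ (N : ℤ) ∣ X := by
    intro hdvd
    have h5 : (N : ℤ) ∣ q * p := by
      have : (q : ℤ) * p = X + N * a := by rw [hX]; ring
      rw [this]
      exact dvd_add hdvd (dvd_mul_right _ _)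
    have h6 : N ∣ q * p := by exact_mod_cast h5
    have h7 : N ∣ q := (Nat.Coprime.dvd_of_dvd_mul_right (Nat.coprime_comm.1 hp) h6)
    have := Nat.le_of_dvd hq1 h7
    omega
  have hdvd : (N : ℤ) ∣ Y - u * X := ⟨-(q * F0) - b + u * a, by rw [hX, hY]; ring⟩
  have hmain := hq X Y hdvd hndvd
  have hXY : (N : ℝ) ≤ 65 * (|(X : ℝ)| * |(Y : ℝ)|) := by exact_mod_cast hmain
  have hX1 : (1 : ℝ) ≤ |(X : ℝ)| := by
    have : X ≠ 0 := by rintro h; rw [h] at hndvd; exact hndvd (dvd_zero _)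
    exact_mod_cast Int.one_le_abs this
  have hY1 : (1 : ℝ) ≤ |(Y : ℝ)| := by
    have : Y ≠ 0 := by
      rintro h
      rw [h] at hXY
      simp at hXY
      omega
    exact_mod_cast Int.one_le_abs this
  have key : ∀ (η x0 Z : ℝ), 1 ≤ |Z| → |η - x0| ≤ 1 / (4 * (N : ℝ)) → x0 = Z / N →
      3 / 4 * |Z| / N ≤ |η| := by
    intro η x0 Z hZ hη hx0
    have h5 : |x0| = |Z| / N := by rw [hx0, abs_div, abs_of_pos hN0]
    have h6 : |x0| - |η| ≤ |η - x0| := by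
      have := abs_sub_abs_le_abs_sub x0 η
      rwa [abs_sub_comm] at this
    have h7 : 1 / (4 * (N : ℝ)) ≤ 1 / 4 * |Z| / N := by
      rw [div_le_div_iff₀ (by positivity) hN0]
      nlinarith
    have h8 : 3 / 4 * |Z| / N = |Z| / N - 1 / 4 * |Z| / N := by ring
    rw [h8]
    linarith
  have hA : 3 / 4 * |(X : ℝ)| / N ≤ nint (q * ξ) := by
    unfold nint
    rw [← ha]
    apply key _ ((q : ℝ) * (p / N) - a) _ hX1
    · have e : (q : ℝ) * ξ - a - (q * (p / N) - a) = q * (ξ - p / N) := by ring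
      rw [e, abs_of_nonneg (mul_nonneg hq0.le (by linarith))]
      refine le_trans ?_ hqs
      apply mul_le_mul_of_nonneg_left _ hq0.le
      linarith
    · rw [hX]; push_cast; field_simp
  have hB : 3 / 4 * |(Y : ℝ)| / N ≤ nint (q * ζ) := by
    unfold nint
    rw [← hb]
    apply key _ ((q : ℝ) * ((p : ℝ) * u / N - F0) - b) _ hY1
    · have e : (q : ℝ) * ζ - b - (q * ((p : ℝ) * u / N - F0) - b) = q * (ζ - ((p : ℝ) * u / N - F0)) := by
        ring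
      rw [e, abs_of_nonneg (mul_nonneg hq0.le (by linarith))]
      refine le_trans ?_ hqs
      apply mul_le_mul_of_nonneg_left _ hq0.le
      linarith
    · rw [hY]; push_cast; field_simp
  calc 9 / (1040 * (N : ℝ)) ≤ (3 / 4 * |(X : ℝ)| / N) * (3 / 4 * |(Y : ℝ)| / N) := by
        have e : (3 / 4 * |(X : ℝ)| / N) * (3 / 4 * |(Y : ℝ)| / N) =
            9 * (|(X : ℝ)| * |(Y : ℝ)|) / (16 * N ^ 2) := by field_simp; ring
        rw [e, div_le_div_iff₀ (by positivity) (by positivity)]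
        nlinarith
    _ ≤ _ := mul_le_mul hA hB (by positivity) (abs_nonneg _)

theorem F_gt (ξ ζ : ℝ) (h : ∀ n0 : ℕ, ∃ N ≥ n0, ∃ g, 16 ≤ N ∧ Q3.ULit.Good N g ∧ g.1 ≤ ξ ∧
    ξ ≤ g.1 + 1 / (4 * (N : ℝ) ^ 2) ∧ g.2 ≤ ζ ∧ ζ ≤ g.2 + 1 / (4 * (N : ℝ) ^ 2)) :
    ((1 / 188 : ℝ) : EReal) < F ξ ζ := by
  have hfreq : ∃ᶠ Q : ℕ in atTop, ((1 / 187 : ℝ) : EReal) ≤ (((Q : ℝ) * mQ ξ ζ Q : ℝ) : EReal) := by
    rw [Filter.frequently_atTop]
    intro n0
    obtain ⟨N, hN, g, hN16, ⟨p, u, hpN, hcop, _, hq, rfl⟩, h1, h2, h3, h4⟩ := h (n0 + 1)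
    refine ⟨N - 1, by omega, ?_⟩
    rw [EReal.coe_le_coe_iff]
    have hNr : (16 : ℝ) ≤ N := by exact_mod_cast hN16
    have hN0 : (0 : ℝ) < N := by linarith
    have hm : 9 / (1040 * (N : ℝ)) ≤ mQ ξ ζ (N - 1) := by
      unfold mQ
      apply le_csInf
      · exact ⟨_, 1, ⟨le_rfl, by omega⟩, rfl⟩
      · rintro _ ⟨q, ⟨hq1, hq2⟩, rfl⟩
        exact prod_ge N p u hN16 hcop hq ξ ζ h1 h2 h3 h4 q hq1 (by omega)
    have hc : ((N - 1 : ℕ) : ℝ) = N - 1 := by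
      rw [Nat.cast_sub (by omega)]; norm_num
    rw [hc]
    calc (1 / 187 : ℝ) ≤ (N - 1) * (9 / (1040 * (N : ℝ))) := by
          rw [mul_div_assoc', div_le_div_iff₀ (by norm_num) (by positivity)]
          nlinarith
      _ ≤ _ := by
          apply mul_le_mul_of_nonneg_left hm
          linarith
  have h1 : ((1 / 187 : ℝ) : EReal) ≤ F ξ ζ := by
    unfold F
    exact Filter.le_limsup_of_frequently_le hfreq
  refine lt_of_lt_of_le ?_ h1
  rw [EReal.coe_lt_coe_iff]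
  norm_num

/-- **The Hausdorff dimension of `Θ` is at least `2/3`.** -/
theorem result : (2 / 3 : ℝ≥0∞) ≤ dimH Theta := by
  obtain ⟨E, hE1, hE2⟩ := Q3.ULit.cantor
  have hsub : E ⊆ (fun v : EuclideanSpace ℝ (Fin 2) => ((v 0, v 1) : ℝ × ℝ)) '' Theta := by
    intro y hy
    refine ⟨!₂[y.1, y.2], ?_, ?_⟩
    · show ((1 / 188 : ℝ) : EReal) < F y.1 y.2
      exact F_gt y.1 y.2 (hE2 y hy)
    · simp
  have hlip : LipschitzWith 1 (fun v : EuclideanSpace ℝ (Fin 2) => ((v 0, v 1) : ℝ × ℝ)) := by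
    apply LipschitzWith.of_dist_le_mul
    intro v w
    rw [NNReal.coe_one, one_mul, Prod.dist_eq, max_le_iff]
    have hc : ∀ i : Fin 2, dist (v i) (w i) ≤ dist v w := by
      intro i
      rw [EuclideanSpace.dist_eq]
      apply Real.le_sqrt_of_sq_le
      exact Finset.single_le_sum (f := fun i => dist (v i) (w i) ^ 2) (fun i _ => sq_nonneg _)
        (Finset.mem_univ i)
    exact ⟨hc 0, hc 1⟩
  have h1 : dimH E ≤ dimH Theta := (dimH_mono hsub).trans (hlip.dimH_image_le Theta)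
  refine le_trans (le_of_eq ?_) (hE1.trans h1)
  rw [ENNReal.coe_div (by norm_num)]
  norm_num

end Pool.Agent.Results.MP_0aa2e9_nt.UniformLittlewood
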